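import Pool.Agent.H46.VIO.Stmts
import Pool.Agent.H62.EHB.CoreG

/-!
# VIO, TSL: Thue-Siegel with `g` proportional to the height
-/

set_option autoImplicit false

namespace Pool.VIO

open Finset

namespace TSL52

/-- roots of unity modulo `t` -/
theorem dvd_root {g t x : ℕ} {a b : ℤ} (ht : t.Prime) (hg : ¬ t ∣ g) (hb : ¬ (t : ℤ) ∣ b)
    (hab : (t : ℤ) ∣ a - b) (h : (t : ℤ) ^ x ∣ a ^ g - b ^ g) : (t : ℤ) ^ x ∣ a - b := by
  have hp : Prime (t : ℤ) := Nat.prime_iff_prime_int.mp ht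
  have h1 : ¬ (t : ℤ) ∣ ∑ i ∈ range g, a ^ i * b ^ (g - 1 - i) := by
    rw [dvd_geom_sum₂_iff_of_dvd_sub' hab]
    intro h2
    rcases hp.dvd_or_dvd h2 with h3 | h3
    · exact hg (by exact_mod_cast h3)
    · exact hb ((hp.dvd_of_dvd_pow h3) |> fun h4 => by
        have := dvd_sub h4 hab
        simpa using this)
  have h2 : IsCoprime ((t : ℤ) ^ x) (∑ i ∈ range g, a ^ i * b ^ (g - 1 - i)) :=
    IsCoprime.pow_left ((Prime.coprime_iff_not_dvd hp).2 h1)
  rw [← geom_sum₂_mul] at h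
  exact h2.dvd_of_dvd_mul_left h

theorem log_prod_pow {T : Finset ℕ} {x : ℕ → ℕ} (hT : ∀ t ∈ T, t.Prime) :
    Real.log (∏ t ∈ T, (t : ℝ) ^ x t) = ∑ t ∈ T, (x t : ℝ) * Real.log t := by
  rw [Real.log_prod]
  · refine Finset.sum_congr rfl fun t _ => ?_
    rw [Real.log_pow]
  · intro t ht
    have : (t : ℝ) ≠ 0 := by exact_mod_cast (hT t ht).ne_zero
    exact pow_ne_zero _ this

variable {R : ℝ} {g : ℕ} {T : Finset ℕ} {x m : ℕ → ℕ} {Y1 Y2 W1 W2 N D : ℕ}

theorem not_dvd_D (h : Apx R g T x m Y1 Y2 W1 W2 N D) {t : ℕ} (ht : t ∈ T) :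
    ¬ t ∣ D ∧ ¬ t ∣ N := by
  obtain ⟨h1, h2, h3, h4⟩ := h.tY t ht
  have hp := h.pr t ht
  have key1 : t ∣ D → t ∣ N := by
    intro hd
    have h5 : t ∣ Y2 * W1 ^ g * N := by
      rw [← h.eq]
      exact Dvd.dvd.mul_left hd _
    rcases (Nat.Prime.dvd_mul hp).1 h5 with h6 | h6
    · rcases (Nat.Prime.dvd_mul hp).1 h6 with h7 | h7
      · exact absurd h7 h2
      · exact absurd (hp.dvd_of_dvd_pow h7) h3
    · exact h6
  have key2 : t ∣ N → t ∣ D := by
    intro hd
    have h5 : t ∣ Y1 * W2 ^ g * D := by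
      rw [h.eq]
      exact Dvd.dvd.mul_left hd _
    rcases (Nat.Prime.dvd_mul hp).1 h5 with h6 | h6
    · rcases (Nat.Prime.dvd_mul hp).1 h6 with h7 | h7
      · exact absurd h7 h1
      · exact absurd (hp.dvd_of_dvd_pow h7) h4
    · exact h6
  constructor
  · intro hd
    exact Nat.not_coprime_of_dvd_of_dvd hp.one_lt (key1 hd) hd h.cop
  · intro hd
    exact Nat.not_coprime_of_dvd_of_dvd hp.one_lt hd (key2 hd) h.cop

theorem dvd_rel (h : Apx R g T x m Y1 Y2 W1 W2 N D) {t : ℕ} (ht : t ∈ T) :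
    (t : ℤ) ^ x t ∣ (W2 : ℤ) ^ g * D - (W1 : ℤ) ^ g * N := by
  obtain ⟨h1, h2, h3, h4⟩ := h.tY t ht
  have hp : Prime (t : ℤ) := Nat.prime_iff_prime_int.mp (h.pr t ht)
  have e : (Y1 : ℤ) * W2 ^ g * D = Y2 * W1 ^ g * N := by exact_mod_cast h.eq
  have h5 : (t : ℤ) ^ x t ∣ (Y1 : ℤ) * ((W2 : ℤ) ^ g * D - (W1 : ℤ) ^ g * N) := by
    have h6 : (Y1 : ℤ) * ((W2 : ℤ) ^ g * D - (W1 : ℤ) ^ g * N) =
        -(((Y1 : ℤ) - Y2) * (W1 ^ g * N)) := by
      calc (Y1 : ℤ) * ((W2 : ℤ) ^ g * D - (W1 : ℤ) ^ g * N) =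
          (Y1 : ℤ) * W2 ^ g * D - Y1 * W1 ^ g * N := by ring
        _ = -(((Y1 : ℤ) - Y2) * (W1 ^ g * N)) := by
          rw [e]
          ring
    rw [h6]
    exact (dvd_neg.2 (Dvd.dvd.mul_right (h.cY t ht) _))
  have h7 : IsCoprime ((t : ℤ) ^ x t) (Y1 : ℤ) :=
    IsCoprime.pow_left ((Prime.coprime_iff_not_dvd hp).2 (by
      intro h8
      exact h1 (by exact_mod_cast h8)))
  exact h7.dvd_of_dvd_mul_left h5

theorem dvd_ND (h : Apx R g T x m Y1 Y2 W1 W2 N D) {t : ℕ} (ht : t ∈ T) :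
    (t : ℤ) ^ m t ∣ (N : ℤ) - D := by
  obtain ⟨h1, h2, h3, h4⟩ := h.tY t ht
  have hp : Prime (t : ℤ) := Nat.prime_iff_prime_int.mp (h.pr t ht)
  have h5 : (t : ℤ) ^ m t ∣ (W2 : ℤ) ^ g * D - (W1 : ℤ) ^ g * N :=
    (pow_dvd_pow _ (h.mx t ht).2.1).trans (dvd_rel h ht)
  have h6 : (t : ℤ) ^ m t ∣ (W1 : ℤ) ^ g - (W2 : ℤ) ^ g :=
    (h.cW t ht).trans (sub_dvd_pow_sub_pow _ _ _)
  have h7 : (t : ℤ) ^ m t ∣ (W2 : ℤ) ^ g * ((N : ℤ) - D) := by
    have h8 : (W2 : ℤ) ^ g * ((N : ℤ) - D) =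
        -(((W2 : ℤ) ^ g * D - (W1 : ℤ) ^ g * N) + ((W1 : ℤ) ^ g - (W2 : ℤ) ^ g) * N) := by ring
    rw [h8]
    exact dvd_neg.2 (dvd_add h5 (Dvd.dvd.mul_right h6 _))
  have h9 : IsCoprime ((t : ℤ) ^ m t) ((W2 : ℤ) ^ g) :=
    IsCoprime.pow ((Prime.coprime_iff_not_dvd hp).2 (by
      intro h8
      exact h4 (by exact_mod_cast h8)))
  exact h9.dvd_of_dvd_mul_left h7

/-- the product of coprime prime powers divides -/
theorem prod_dvd {a : ℤ} (hT : ∀ t ∈ T, t.Prime) (h : ∀ t ∈ T, (t : ℤ) ^ x t ∣ a) :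
    (∏ t ∈ T, t ^ x t) ∣ a.natAbs := by
  have h1 : ∀ t ∈ T, t ^ x t ∣ a.natAbs := by
    intro t ht
    rw [← Int.natCast_dvd]
    push_cast
    exact h t ht
  refine Finset.prod_dvd_of_isRelPrime ?_ h1
  intro t ht s hs hts
  rw [Function.onFun, ← Nat.coprime_iff_isRelPrime]
  exact Nat.Coprime.pow _ _ ((Nat.coprime_primes (hT t ht) (hT s hs)).mpr hts)

/-- the case `N = D` -/
theorem case_eq (h : Apx R g T x m Y1 Y2 W1 W2 N D) (hND : N = D) {V : ℝ}
    (h1 : Real.log W1 ≤ V) (h2 : Real.log W2 ≤ V) :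
    ∑ t ∈ T, (x t : ℝ) * Real.log t ≤ V := by
  have hD0 : 0 < D := h.D0
  have hN1 : N = 1 := by
    have := h.cop
    rw [hND, Nat.coprime_self] at this
    rw [hND, this]
  have hD1 : D = 1 := hND ▸ hN1
  have hne : W1 ≠ W2 := by
    rintro rfl
    have := h.eq
    rw [hN1, hD1] at this
    have hW : 0 < W1 ^ g := pow_pos h.W10 g
    have h3 : Y1 * W1 ^ g = Y2 * W1 ^ g := by simpa using this
    exact h.ne (Nat.eq_of_mul_eq_mul_right hW h3)
  have hd : ∀ t ∈ T, (t : ℤ) ^ x t ∣ (W1 : ℤ) - W2 := by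
    intro t ht
    obtain ⟨k1, k2, k3, k4⟩ := h.tY t ht
    have h5 := dvd_rel h ht
    rw [hN1, hD1] at h5
    have h6 : (t : ℤ) ^ x t ∣ (W1 : ℤ) ^ g - (W2 : ℤ) ^ g := by
      have : (W1 : ℤ) ^ g - (W2 : ℤ) ^ g =
          -((W2 : ℤ) ^ g * ((1 : ℕ) : ℤ) - (W1 : ℤ) ^ g * ((1 : ℕ) : ℤ)) := by
        push_cast
        ring
      rw [this]
      exact dvd_neg.2 h5
    have hm : (t : ℤ) ∣ (W1 : ℤ) - W2 := by
      have := h.cW t ht
      have h7 : (t : ℤ) ∣ (t : ℤ) ^ m t :=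
        dvd_pow_self _ (by have := (h.mx t ht).1; omega)
      exact h7.trans this
    refine dvd_root (h.pr t ht) (h.tg t ht) ?_ hm h6
    intro h8
    exact k4 (by exact_mod_cast h8)
  have hdv := prod_dvd h.pr hd
  have hpos : 0 < ((W1 : ℤ) - W2).natAbs := Int.natAbs_pos.2 (by
    intro h9
    apply hne
    have : (W1 : ℤ) = W2 := by linarith
    exact_mod_cast this)
  have hle : (∏ t ∈ T, t ^ x t) ≤ ((W1 : ℤ) - W2).natAbs := Nat.le_of_dvd hpos hdv
  have hle2 : ((W1 : ℤ) - W2).natAbs ≤ max W1 W2 := by omega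
  have hle3 : (∏ t ∈ T, (t : ℝ) ^ x t) ≤ ((max W1 W2 : ℕ) : ℝ) := by
    have := hle.trans hle2
    exact_mod_cast this
  have hprod0 : (0 : ℝ) < ∏ t ∈ T, (t : ℝ) ^ x t := by
    refine Finset.prod_pos fun t ht => ?_
    have : (0 : ℝ) < t := by exact_mod_cast (h.pr t ht).pos
    positivity
  rw [← log_prod_pow h.pr]
  refine (Real.log_le_log hprod0 hle3).trans ?_
  rcases le_total W1 W2 with h10 | h10
  · rw [max_eq_right h10]
    exact h2
  · rw [max_eq_left h10]
    exact h1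

/-- the case `N ≠ D`, with parameters -/
theorem case_ne (h : Apx R g T x m Y1 Y2 W1 W2 N D) (hND : N ≠ D) (hg : 0 < g) {M n G : ℕ}
    {U V : ℝ} (hM : 1 ≤ M) (hMg : M ≤ g) (hn : 1 ≤ n) (hG : 0 < G)
    (hGR : g * (4 * n) + 1 * M ≤ G * (8 * M * n)) (hRx : R * g ≤ 2 * M * (n - 1))
    (hN : Real.log N ≤ U) (hD : Real.log D ≤ U) (h1 : Real.log W1 ≤ V) (h2 : Real.log W2 ≤ V) :
    ∑ t ∈ T, (x t : ℝ) * Real.log t ≤
      (M : ℝ) * n * (116 + 12 * G) + 4 * n * U + M * V := by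
  have hMn : M ≤ M * n := Nat.le_mul_of_pos_right M hn
  have key := H62EHB.coreG T g 1 M (4 * n) (3 * (M * n)) (M * n + 2 * M) N D G (8 * M * n)
    (W2 : ℤ) (W1 : ℤ) m x h.pr hg (Nat.coprime_one_left g) hG hGR hM hMg
    (by
      calc 4 * (3 * (M * n)) = 3 * (M * (4 * n)) := by ring
        _ ≤ 3 * (M * (4 * n)) := le_rfl)
    (by
      calc M * (4 * n) + 2 * M = 3 * (M * n) + (M * n + 2 * M) := by ring
        _ ≤ 3 * (M * n) + (M * n + 2 * M) := le_rfl)
    (by omega) h.N0 h.D0 hND (by exact_mod_cast h.W20.ne') (by exact_mod_cast h.W10.ne')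
    (by
      intro t ht
      obtain ⟨k1, k2, k3, k4⟩ := h.tY t ht
      obtain ⟨m1, m2, m3⟩ := h.mx t ht
      refine ⟨h.tg t ht, (not_dvd_D h ht).1, ?_, m1, dvd_ND h ht, ?_, ?_, ?_⟩
      · intro h8
        exact k3 (by exact_mod_cast h8)
      · have h7 : (t : ℤ) ∣ (t : ℤ) ^ m t := dvd_pow_self _ (by omega)
        have h8 := h7.trans (h.cW t ht)
        have h9 : (W2 : ℤ) - W1 = -((W1 : ℤ) - W2) := by ring
        rw [h9]
        exact dvd_neg.2 h8
      · rw [pow_one, pow_one]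
        exact dvd_rel h ht
      · have e : 3 * (M * n) - (M * n + 2 * M) = 2 * M * (n - 1) := by
          obtain ⟨n', rfl⟩ : ∃ n', n = n' + 1 := ⟨n - 1, by omega⟩
          have : M * (n' + 1) = M * n' + M := by ring
          rw [Nat.add_sub_cancel]
          have h3 : 2 * M * n' = 2 * (M * n') := by ring
          rw [h3, this]
          omega
        rw [e]
        have h4 : (x t : ℝ) ≤ (m t : ℝ) * (2 * M * ((n : ℝ) - 1)) := by
          calc (x t : ℝ) ≤ R * g * m t := m3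
            _ ≤ (2 * M * ((n : ℝ) - 1)) * m t :=
              mul_le_mul_of_nonneg_right hRx (Nat.cast_nonneg _)
            _ = _ := by ring
        have h5 : ((m t * (2 * M * (n - 1)) : ℕ) : ℝ) = (m t : ℝ) * (2 * M * ((n : ℝ) - 1)) := by
          push_cast [Nat.cast_sub hn]
          ring
        rw [← h5] at h4
        exact_mod_cast h4)
  have hprod0 : (0 : ℝ) < ∏ t ∈ T, (t : ℝ) ^ x t := by
    refine Finset.prod_pos fun t ht => ?_
    have : (0 : ℝ) < t := by exact_mod_cast (h.pr t ht).pos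
    positivity
  have hMR : (1 : ℝ) ≤ M := by exact_mod_cast hM
  have hnR : (1 : ℝ) ≤ n := by exact_mod_cast hn
  have hGR' : (1 : ℝ) ≤ G := by exact_mod_cast hG
  have hN1 : (1 : ℝ) ≤ N := by exact_mod_cast h.N0
  have hD1 : (1 : ℝ) ≤ D := by exact_mod_cast h.D0
  have hW1 : (1 : ℝ) ≤ W1 := by exact_mod_cast h.W10
  have hW2 : (1 : ℝ) ≤ W2 := by exact_mod_cast h.W20
  set P : ℝ := max (N : ℝ) (D : ℝ) with hP
  set A : ℝ := max |((W2 : ℤ) : ℝ)| |((W1 : ℤ) : ℝ)| with hA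
  have hP1 : 1 ≤ P := le_max_of_le_left hN1
  have hlP : Real.log P ≤ U := by
    rcases le_total (N : ℝ) D with h10 | h10
    · rw [hP, max_eq_right h10]
      exact hD
    · rw [hP, max_eq_left h10]
      exact hN
  have hA' : A = max (W2 : ℝ) (W1 : ℝ) := by
    rw [hA, Int.cast_natCast, Int.cast_natCast, Nat.abs_cast, Nat.abs_cast]
  have hA1 : 1 ≤ A := by
    rw [hA']
    exact le_max_of_le_left hW2
  have hlA : Real.log A ≤ V := by
    rw [hA']
    rcases le_total (W2 : ℝ) W1 with h10 | h10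
    · rw [max_eq_right h10]
      exact h1
    · rw [max_eq_left h10]
      exact h2
  set E : ℝ := (M : ℝ) * ((4 * n : ℕ) + 1) with hE
  have hE1 : 1 ≤ E := by
    rw [hE]
    push_cast
    nlinarith
  have hGpos : (0 : ℝ) < (G : ℝ) ^ (3 * (M * n)) := by positivity
  have h3pos : (0 : ℝ) < (3 : ℝ) ^ (8 * M * n) := by positivity
  have hlog := Real.log_le_log hprod0 key
  rw [log_prod_pow h.pr] at hlog
  have e1 : Real.log ((E * ((G : ℝ) ^ (3 * (M * n)) * 3 ^ (8 * M * n))) ^ 4 * P ^ (4 * n) *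
      A ^ M) = 4 * (Real.log E + ((3 * (M * n) : ℕ) * Real.log G + (8 * M * n : ℕ) * Real.log 3)) +
      (4 * n : ℕ) * Real.log P + M * Real.log A := by
    have hPp : 0 < P := by linarith
    have hAp : 0 < A := by linarith
    have hEp : 0 < E := by linarith
    rw [Real.log_mul (by positivity) (by positivity), Real.log_mul (by positivity) (by positivity),
      Real.log_pow, Real.log_pow, Real.log_pow, Real.log_mul hEp.ne' (by positivity),
      Real.log_mul hGpos.ne' h3pos.ne', Real.log_pow, Real.log_pow]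
    norm_num
  rw [e1] at hlog
  have l1 : Real.log E ≤ E := (Real.log_le_sub_one_of_pos (by linarith)).trans (by linarith)
  have l2 : Real.log G ≤ G :=
    (Real.log_le_sub_one_of_pos (by linarith)).trans (by linarith)
  have l3 : Real.log 3 ≤ 3 :=
    (Real.log_le_sub_one_of_pos (by norm_num)).trans (by norm_num)
  have hMn0 : (0 : ℝ) ≤ (M : ℝ) * n := by positivity
  have hMn1 : (M : ℝ) ≤ M * n := by nlinarith
  have t1 : E ≤ 5 * (M * n) := by
    rw [hE]
    push_cast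
    nlinarith
  have t2 : ((3 * (M * n) : ℕ) : ℝ) * Real.log G ≤ 3 * (M * n) * G := by
    push_cast
    exact mul_le_mul_of_nonneg_left l2 (by positivity)
  have t3 : ((8 * M * n : ℕ) : ℝ) * Real.log 3 ≤ 8 * (M * n) * 3 := by
    push_cast
    calc (8 : ℝ) * M * n * Real.log 3 ≤ 8 * M * n * 3 :=
          mul_le_mul_of_nonneg_left l3 (by positivity)
      _ = 8 * (M * n) * 3 := by ring
  have t4 : ((4 * n : ℕ) : ℝ) * Real.log P ≤ 4 * n * U := by
    push_cast
    exact mul_le_mul_of_nonneg_left hlP (by positivity)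
  have t5 : (M : ℝ) * Real.log A ≤ M * V := mul_le_mul_of_nonneg_left hlA (by positivity)
  calc ∑ t ∈ T, (x t : ℝ) * Real.log t ≤ _ := hlog
    _ ≤ 4 * (5 * (M * n) + (3 * (M * n) * G + 8 * (M * n) * 3)) + 4 * n * U + M * V := by
        linarith
    _ = (M : ℝ) * n * (116 + 12 * G) + 4 * n * U + M * V := by ring

end TSL52

open TSL52

theorem tsl_thm : S_TSL := by
  intro c C1 hc hC1
  set μ : ℝ := min 1 (c / (8 * C1)) with hμ
  have hμ0 : 0 < μ := lt_min one_pos (by positivity)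
  have hμ1 : μ ≤ 1 := min_le_left _ _
  have hμc : μ * C1 ≤ c / 8 := by
    have : μ ≤ c / (8 * C1) := min_le_right _ _
    calc μ * C1 ≤ c / (8 * C1) * C1 := mul_le_mul_of_nonneg_right this (by linarith)
      _ = c / 8 := by field_simp
  refine ⟨c / (8 * (8 / μ + 12)), by positivity, fun R hR => ?_⟩
  set δ : ℝ := c / (8 * (8 / μ + 12)) with hδ
  have hδ0 : 0 < δ := by positivity
  set n : ℕ := ⌈2 * R / μ⌉₊ + 2 with hn
  set G : ℕ := ⌈1 / μ⌉₊ + 1 with hG
  set CR : ℝ := n * (116 + 12 * G) with hCR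
  have hRμ : 0 < 2 * R / μ := by positivity
  have hn1 : 2 * R / μ + 2 ≤ n := by
    rw [hn]
    push_cast
    have := Nat.le_ceil (2 * R / μ)
    linarith
  have hn2 : (n : ℝ) ≤ 2 * R / μ + 3 := by
    rw [hn]
    push_cast
    have := (Nat.ceil_lt_add_one hRμ.le).le
    linarith
  have hG1 : 1 / μ + 1 ≤ G := by
    rw [hG]
    push_cast
    have := Nat.le_ceil (1 / μ)
    linarith
  have hCR0 : 0 < CR := by positivity
  refine ⟨1 + 8 * CR / c + 2 / μ + 2 * C1 / c, ?_, ?_⟩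
  · have : 0 < 8 * CR / c + 2 / μ + 2 * C1 / c := by positivity
    linarith
  intro g T x m Y1 Y2 W1 W2 N D h0 h hg0 hgh hN hD h1 h2
  set G0 : ℝ := 1 + 8 * CR / c + 2 / μ + 2 * C1 / c with hG0
  have p1 : 0 < 8 * CR / c := by positivity
  have p2 : 0 < 2 / μ := by positivity
  have p3 : 0 < 2 * C1 / c := by positivity
  have hgR : (1 : ℝ) < g := by linarith
  have hg : 0 < g := by
    have : (0 : ℝ) < g := by linarith
    exact_mod_cast this
  have hg0' : (0 : ℝ) < g := by linarith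
  have hh0 : 0 < h0 := lt_of_lt_of_le (by positivity) hgh
  by_cases hND : N = D
  · refine lt_of_le_of_lt (case_eq h hND h1 h2) ?_
    rw [div_lt_iff₀ hg0']
    have h3 : 2 * C1 / c ≤ g := by linarith
    rw [div_le_iff₀ hc] at h3
    have h4 : 0 < C1 * h0 := by positivity
    nlinarith
  · set M : ℕ := ⌊μ * g⌋₊ with hM
    have hμg : 2 ≤ μ * g := by
      have h3 : 2 / μ ≤ g := by linarith
      rw [div_le_iff₀ hμ0] at h3
      linarith
    have hM1 : (M : ℝ) ≤ μ * g := Nat.floor_le (by linarith)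
    have hM2 : μ * g - 1 < M := Nat.sub_one_lt_floor _
    have hM3 : μ * g / 2 ≤ M := by linarith
    have hMn : 1 ≤ M := by
      have : (0 : ℝ) < M := by linarith
      have h3 : 0 < M := by exact_mod_cast this
      exact h3
    have hMg : M ≤ g := by
      have : (M : ℝ) ≤ g := by nlinarith
      exact_mod_cast this
    have hnn : (1 : ℝ) ≤ n := by linarith
    have hGR : g * (4 * n) + 1 * M ≤ G * (8 * M * n) := by
      have h3 : (g : ℝ) * (4 * n) + 1 * M ≤ G * (8 * M * n) := by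
        have a1 : (1 / μ + 1) * (8 * (μ * g / 2) * n) ≤ (G : ℝ) * (8 * M * n) := by
          apply mul_le_mul hG1 _ (by positivity) (by positivity)
          exact mul_le_mul_of_nonneg_right (by linarith) (by positivity)
        have a2 : (1 / μ + 1) * (8 * (μ * g / 2) * n) = g * (4 * n) + 4 * n * (μ * g) := by
          field_simp
          ring
        have a3 : (M : ℝ) ≤ 4 * n * (μ * g) := by nlinarith
        linarith
      exact_mod_cast h3
    have hRx : R * g ≤ 2 * M * ((n : ℝ) - 1) := by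
      have a1 : 2 * R / μ + 1 ≤ (n : ℝ) - 1 := by linarith
      calc R * g ≤ μ * g * (2 * R / μ + 1) := by
            have : μ * g * (2 * R / μ + 1) = 2 * R * g + μ * g := by
              field_simp
            rw [this]
            nlinarith
        _ ≤ (2 * M) * ((n : ℝ) - 1) :=
            mul_le_mul (by linarith) a1 (by positivity) (by positivity)
    have key := case_ne h hND hg hMn hMg (by omega : 1 ≤ n) (by omega : 0 < G) hGR hRx hN hD h1 h2
    refine lt_of_le_of_lt key ?_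
    have b1 : (M : ℝ) * n * (116 + 12 * G) ≤ c / 8 * h0 := by
      have a1 : (M : ℝ) ≤ g := by exact_mod_cast hMg
      have a2 : CR * g ≤ c / 8 * h0 := by
        have a3 : 8 * CR / c * g ≤ h0 := by
          refine le_trans ?_ hgh
          exact mul_le_mul_of_nonneg_right (by linarith) hg0'.le
        have a4 : CR * g = c / 8 * (8 * CR / c * g) := by
          field_simp
        rw [a4]
        exact mul_le_mul_of_nonneg_left a3 (by positivity)
      calc (M : ℝ) * n * (116 + 12 * G) = M * CR := by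
            rw [hCR]
            ring
        _ ≤ g * CR := mul_le_mul_of_nonneg_right a1 hCR0.le
        _ = CR * g := by ring
        _ ≤ _ := a2
    have b2 : 4 * (n : ℝ) * (δ / R * h0) ≤ c / 8 * h0 := by
      have a1 : 4 * (n : ℝ) / R ≤ 8 / μ + 12 := by
        rw [div_le_iff₀ (by linarith)]
        have : (8 / μ + 12) * R = 4 * (2 * R / μ) + 12 * R := by
          field_simp
          ring
        rw [this]
        linarith
      have a2 : δ * (8 / μ + 12) = c / 8 := by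
        rw [hδ]
        field_simp
      calc 4 * (n : ℝ) * (δ / R * h0) = δ * (4 * n / R) * h0 := by
            field_simp
        _ ≤ δ * (8 / μ + 12) * h0 := by
            gcongr
        _ = c / 8 * h0 := by rw [a2]
    have b3 : (M : ℝ) * (C1 * h0 / g) ≤ c / 8 * h0 := by
      calc (M : ℝ) * (C1 * h0 / g) ≤ (μ * g) * (C1 * h0 / g) :=
            mul_le_mul_of_nonneg_right hM1 (by positivity)
        _ = (μ * C1) * h0 := by
            field_simp
        _ ≤ c / 8 * h0 := mul_le_mul_of_nonneg_right hμc hh0.le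
    have b4 : 0 < c * h0 := by positivity
    linarith

end Pool.VIO
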